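import Pool.Agent.N332.GK.Defs

/-!
# GK/R2: the exponential bound (project GK, helper332)

The polynomial inequality in `x = √l` and `e` is proved by its Bernstein coefficients on one box.
-/

set_option autoImplicit false
set_option linter.all false

namespace Pool.Agent.N710.GK

open Pool.Agent.N332.GK

/-- Bernstein coefficient `0` in `6 e` -/
noncomputable def b0 (x : ℝ) : ℝ :=
  (11/120)*x^0 + (-4/15)*x^1 + (11/45)*x^2 + (-41/1125)*x^3 + (1/12)*x^4 + (1/60)*x^6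

theorem b0_nonneg {u : ℝ} (hu : 0 ≤ u) (hu1 : 0 ≤ 1 - u) : 0 ≤ b0 ((9/8) * u) := by
  have h : 0 ≤ (11/120)*(u^0*(1-u)^10) + (37/60)*(u^1*(1-u)^9) + (111/64)*(u^2*(1-u)^8) + (167879/64000)*(u^3*(1-u)^7) + (5084671/2048000)*(u^4*(1-u)^6) + (2392269/1024000)*(u^5*(1-u)^5) + (87192359/26214400)*(u^6*(1-u)^4) + (26959271/6553600)*(u^7*(1-u)^3) + (203344041/65536000)*(u^8*(1-u)^2) + (124304233/98304000)*(u^9*(1-u)^1) + (85101001/393216000)*(u^10*(1-u)^0) := by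
    positivity
  have e : b0 ((9/8) * u) = (11/120)*(u^0*(1-u)^10) + (37/60)*(u^1*(1-u)^9) + (111/64)*(u^2*(1-u)^8) + (167879/64000)*(u^3*(1-u)^7) + (5084671/2048000)*(u^4*(1-u)^6) + (2392269/1024000)*(u^5*(1-u)^5) + (87192359/26214400)*(u^6*(1-u)^4) + (26959271/6553600)*(u^7*(1-u)^3) + (203344041/65536000)*(u^8*(1-u)^2) + (124304233/98304000)*(u^9*(1-u)^1) + (85101001/393216000)*(u^10*(1-u)^0) := by
    unfold b0
    ring
  rw [e]
  exact h

/-- Bernstein coefficient `1` in `6 e` -/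
noncomputable def b1 (x : ℝ) : ℝ :=
  (3461/5400)*x^0 + (-293/180)*x^1 + (208297/144000)*x^2 + (-29327/90000)*x^3 + (140029/270000)*x^4 + (-39401/1350000)*x^5 + (83/720)*x^6

theorem b1_nonneg {u : ℝ} (hu : 0 ≤ u) (hu1 : 0 ≤ 1 - u) : 0 ≤ b1 ((9/8) * u) := by
  have h : 0 ≤ (3461/5400)*(u^0*(1-u)^10) + (19777/4320)*(u^1*(1-u)^9) + (43595219/3072000)*(u^2*(1-u)^8) + (1159742897/46080000)*(u^3*(1-u)^7) + (2183309963/73728000)*(u^4*(1-u)^6) + (140012624359/4915200000)*(u^5*(1-u)^5) + (665357954431/23592960000)*(u^6*(1-u)^4) + (155667787243/5898240000)*(u^7*(1-u)^3) + (69879954991/3932160000)*(u^8*(1-u)^2) + (123551985667/17694720000)*(u^9*(1-u)^1) + (420530777873/353894400000)*(u^10*(1-u)^0) := by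
    positivity
  have e : b1 ((9/8) * u) = (3461/5400)*(u^0*(1-u)^10) + (19777/4320)*(u^1*(1-u)^9) + (43595219/3072000)*(u^2*(1-u)^8) + (1159742897/46080000)*(u^3*(1-u)^7) + (2183309963/73728000)*(u^4*(1-u)^6) + (140012624359/4915200000)*(u^5*(1-u)^5) + (665357954431/23592960000)*(u^6*(1-u)^4) + (155667787243/5898240000)*(u^7*(1-u)^3) + (69879954991/3932160000)*(u^8*(1-u)^2) + (123551985667/17694720000)*(u^9*(1-u)^1) + (420530777873/353894400000)*(u^10*(1-u)^0) := by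
    unfold b1
    ring
  rw [e]
  exact h

/-- Bernstein coefficient `2` in `6 e` -/
noncomputable def b2 (x : ℝ) : ℝ :=
  (15281/8100)*x^0 + (-9167/2160)*x^1 + (489439/135000)*x^2 + (-361369/324000)*x^3 + (61703/43200)*x^4 + (-2639867/21600000)*x^5 + (91/270)*x^6 + (-1/648)*x^8 + (-1/2592)*x^10

theorem b2_nonneg {u : ℝ} (hu : 0 ≤ u) (hu1 : 0 ≤ 1 - u) : 0 ≤ b2 ((9/8) * u) := by
  have h : 0 ≤ (15281/8100)*(u^0*(1-u)^10) + (146095/10368)*(u^1*(1-u)^9) + (133956353/2880000)*(u^2*(1-u)^8) + (24779191769/276480000)*(u^3*(1-u)^7) + (507692954879/4423680000)*(u^4*(1-u)^6) + (26173562065199/235929600000)*(u^5*(1-u)^5) + (13320956134237/141557760000)*(u^6*(1-u)^4) + (1033244198857/14155776000)*(u^7*(1-u)^3) + (33485680316279/754974720000)*(u^8*(1-u)^2) + (2288200839839/135895449600)*(u^9*(1-u)^1) + (24858691459119611/8697308774400000)*(u^10*(1-u)^0) := by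
    positivity
  have e : b2 ((9/8) * u) = (15281/8100)*(u^0*(1-u)^10) + (146095/10368)*(u^1*(1-u)^9) + (133956353/2880000)*(u^2*(1-u)^8) + (24779191769/276480000)*(u^3*(1-u)^7) + (507692954879/4423680000)*(u^4*(1-u)^6) + (26173562065199/235929600000)*(u^5*(1-u)^5) + (13320956134237/141557760000)*(u^6*(1-u)^4) + (1033244198857/14155776000)*(u^7*(1-u)^3) + (33485680316279/754974720000)*(u^8*(1-u)^2) + (2288200839839/135895449600)*(u^9*(1-u)^1) + (24858691459119611/8697308774400000)*(u^10*(1-u)^0) := by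
    unfold b2
    ring
  rw [e]
  exact h

/-- Bernstein coefficient `3` in `6 e` -/
noncomputable def b3 (x : ℝ) : ℝ :=
  (1178107/388800)*x^0 + (-79391/12960)*x^1 + (48381469/9720000)*x^2 + (-25740031/12960000)*x^3 + (43570721/19440000)*x^4 + (-8234809/38880000)*x^5 + (1399/2592)*x^6 + (-59/7776)*x^8 + (-59/31104)*x^10

theorem b3_nonneg {u : ℝ} (hu : 0 ≤ u) (hu1 : 0 ≤ 1 - u) : 0 ≤ b3 ((9/8) * u) := by
  have h : 0 ≤ (1178107/388800)*(u^0*(1-u)^10) + (7281299/311040)*(u^1*(1-u)^9) + (5573175221/69120000)*(u^2*(1-u)^8) + (1082159591129/6635520000)*(u^3*(1-u)^7) + (5775987022247/26542080000)*(u^4*(1-u)^6) + (29699357687111/141557760000)*(u^5*(1-u)^5) + (865392526363/5308416000)*(u^6*(1-u)^4) + (23545710521527/212336640000)*(u^7*(1-u)^3) + (560288690232013/9059696640000)*(u^8*(1-u)^2) + (931533929161237/40768634880000)*(u^9*(1-u)^1) + (81142498007610821/20873541058560000)*(u^10*(1-u)^0)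 := by
    positivity
  have e : b3 ((9/8) * u) = (1178107/388800)*(u^0*(1-u)^10) + (7281299/311040)*(u^1*(1-u)^9) + (5573175221/69120000)*(u^2*(1-u)^8) + (1082159591129/6635520000)*(u^3*(1-u)^7) + (5775987022247/26542080000)*(u^4*(1-u)^6) + (29699357687111/141557760000)*(u^5*(1-u)^5) + (865392526363/5308416000)*(u^6*(1-u)^4) + (23545710521527/212336640000)*(u^7*(1-u)^3) + (560288690232013/9059696640000)*(u^8*(1-u)^2) + (931533929161237/40768634880000)*(u^9*(1-u)^1) + (81142498007610821/20873541058560000)*(u^10*(1-u)^0) := by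
    unfold b3
    ring
  rw [e]
  exact h

/-- Bernstein coefficient `4` in `6 e` -/
noncomputable def b4 (x : ℝ) : ℝ :=
  (278497/97200)*x^0 + (-22837/4320)*x^1 + (626650819/155520000)*x^2 + (-29608511/14580000)*x^3 + (333935681/155520000)*x^4 + (-13435741/69120000)*x^5 + (331/648)*x^6 + (-29/1944)*x^8 + (-29/7776)*x^10

theorem b4_nonneg {u : ℝ} (hu : 0 ≤ u) (hu1 : 0 ≤ 1 - u) : 0 ≤ b4 ((9/8) * u) := by
  have h : 0 ≤ (278497/97200)*(u^0*(1-u)^10) + (7062107/311040)*(u^1*(1-u)^9) + (89036817371/1105920000)*(u^2*(1-u)^8) + (27808254167/165888000)*(u^3*(1-u)^7) + (48438752548171/212336640000)*(u^4*(1-u)^6) + (493388764490843/2264924160000)*(u^5*(1-u)^5) + (216081152189617/1358954496000)*(u^6*(1-u)^4) + (333195709170517/3397386240000)*(u^7*(1-u)^3) + (4635981156337/90596966400)*(u^8*(1-u)^2) + (379880331665381/20384317440000)*(u^9*(1-u)^1) + (16701992181304547/5218385264640000)*(u^10*(1-u)^0)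 := by
    positivity
  have e : b4 ((9/8) * u) = (278497/97200)*(u^0*(1-u)^10) + (7062107/311040)*(u^1*(1-u)^9) + (89036817371/1105920000)*(u^2*(1-u)^8) + (27808254167/165888000)*(u^3*(1-u)^7) + (48438752548171/212336640000)*(u^4*(1-u)^6) + (493388764490843/2264924160000)*(u^5*(1-u)^5) + (216081152189617/1358954496000)*(u^6*(1-u)^4) + (333195709170517/3397386240000)*(u^7*(1-u)^3) + (4635981156337/90596966400)*(u^8*(1-u)^2) + (379880331665381/20384317440000)*(u^9*(1-u)^1) + (16701992181304547/5218385264640000)*(u^10*(1-u)^0) := by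
    unfold b4
    ring
  rw [e]
  exact h

/-- Bernstein coefficient `5` in `6 e` -/
noncomputable def b5 (x : ℝ) : ℝ :=
  (103127/64800)*x^0 + (-1309/480)*x^1 + (892814939/466560000)*x^2 + (-772079/640000)*x^3 + (3489500429/2799360000)*x^4 + (-1394283187/13996800000)*x^5 + (77/270)*x^6 + (-19/1296)*x^8 + (-19/5184)*x^10

theorem b5_nonneg {u : ℝ} (hu : 0 ≤ u) (hu1 : 0 ≤ 1 - u) : 0 ≤ b5 ((9/8) * u) := by
  have h : 0 ≤ (103127/64800)*(u^0*(1-u)^10) + (266389/20736)*(u^1*(1-u)^9) + (17114542939/368640000)*(u^2*(1-u)^8) + (868693141331/8847360000)*(u^3*(1-u)^7) + (19009106339693/141557760000)*(u^4*(1-u)^6) + (237519491532199/1887436800000)*(u^5*(1-u)^5) + (98173966593757/1132462080000)*(u^6*(1-u)^4) + (27873919137941/566231040000)*(u^7*(1-u)^3) + (36991541453581/1509949440000)*(u^8*(1-u)^2) + (60980845908251/6794772480000)*(u^9*(1-u)^1) + (27371799864891809/17394617548800000)*(u^10*(1-u)^0)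 := by
    positivity
  have e : b5 ((9/8) * u) = (103127/64800)*(u^0*(1-u)^10) + (266389/20736)*(u^1*(1-u)^9) + (17114542939/368640000)*(u^2*(1-u)^8) + (868693141331/8847360000)*(u^3*(1-u)^7) + (19009106339693/141557760000)*(u^4*(1-u)^6) + (237519491532199/1887436800000)*(u^5*(1-u)^5) + (98173966593757/1132462080000)*(u^6*(1-u)^4) + (27873919137941/566231040000)*(u^7*(1-u)^3) + (36991541453581/1509949440000)*(u^8*(1-u)^2) + (60980845908251/6794772480000)*(u^9*(1-u)^1) + (27371799864891809/17394617548800000)*(u^10*(1-u)^0) := by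
    unfold b5
    ring
  rw [e]
  exact h

/-- Bernstein coefficient `6` in `6 e` -/
noncomputable def b6 (x : ℝ) : ℝ :=
  (9311/19440)*x^0 + (-10091/12960)*x^1 + (45693263/93312000)*x^2 + (-181151333/466560000)*x^3 + (1129537877/2799360000)*x^4 + (-3025484587/111974400000)*x^5 + (281/3240)*x^6 + (-7/972)*x^8 + (-7/3888)*x^10

theorem b6_nonneg {u : ℝ} (hu : 0 ≤ u) (hu1 : 0 ≤ 1 - u) : 0 ≤ b6 ((9/8) * u) := by
  have h : 0 ≤ (9311/19440)*(u^0*(1-u)^10) + (1217303/311040)*(u^1*(1-u)^9) + (3160586989/221184000)*(u^2*(1-u)^8) + (805449675467/26542080000)*(u^3*(1-u)^7) + (698693302871/16986931200)*(u^4*(1-u)^6) + (1687546560297997/45298483200000)*(u^5*(1-u)^5) + (648833396080871/27179089920000)*(u^6*(1-u)^4) + (168445594700071/13589544960000)*(u^7*(1-u)^3) + (5442184656253/905969664000)*(u^8*(1-u)^2) + (187135393006853/81537269760000)*(u^9*(1-u)^1) + (5467124536052861/13045963161600000)*(u^10*(1-u)^0)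 := by
    positivity
  have e : b6 ((9/8) * u) = (9311/19440)*(u^0*(1-u)^10) + (1217303/311040)*(u^1*(1-u)^9) + (3160586989/221184000)*(u^2*(1-u)^8) + (805449675467/26542080000)*(u^3*(1-u)^7) + (698693302871/16986931200)*(u^4*(1-u)^6) + (1687546560297997/45298483200000)*(u^5*(1-u)^5) + (648833396080871/27179089920000)*(u^6*(1-u)^4) + (168445594700071/13589544960000)*(u^7*(1-u)^3) + (5442184656253/905969664000)*(u^8*(1-u)^2) + (187135393006853/81537269760000)*(u^9*(1-u)^1) + (5467124536052861/13045963161600000)*(u^10*(1-u)^0) := by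
    unfold b6
    ring
  rw [e]
  exact h

/-- Bernstein coefficient `7` in `6 e` -/
noncomputable def b7 (x : ℝ) : ℝ :=
  (931/15552)*x^0 + (-41/432)*x^1 + (958409/18662400)*x^2 + (-816023/15552000)*x^3 + (5216987/93312000)*x^4 + (-11308087/3732480000)*x^5 + (143/12960)*x^6 + (-11/7776)*x^8 + (-11/31104)*x^10

theorem b7_nonneg {u : ℝ} (hu : 0 ≤ u) (hu1 : 0 ≤ 1 - u) : 0 ≤ b7 ((9/8) * u) := by
  have h : 0 ≤ (931/15552)*(u^0*(1-u)^10) + (15299/31104)*(u^1*(1-u)^9) + (79534427/44236800)*(u^2*(1-u)^8) + (10046583371/2654208000)*(u^3*(1-u)^7) + (42374839063/8493465600)*(u^4*(1-u)^6) + (19185248387491/4529848320000)*(u^5*(1-u)^5) + (6500074277513/2717908992000)*(u^6*(1-u)^4) + (1448447618473/1358954496000)*(u^7*(1-u)^3) + (37720322669/72477573120)*(u^8*(1-u)^2) + (462637989191/2038431744000)*(u^9*(1-u)^1) + (940706989886453/20873541058560000)*(u^10*(1-u)^0) := by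
    positivity
  have e : b7 ((9/8) * u) = (931/15552)*(u^0*(1-u)^10) + (15299/31104)*(u^1*(1-u)^9) + (79534427/44236800)*(u^2*(1-u)^8) + (10046583371/2654208000)*(u^3*(1-u)^7) + (42374839063/8493465600)*(u^4*(1-u)^6) + (19185248387491/4529848320000)*(u^5*(1-u)^5) + (6500074277513/2717908992000)*(u^6*(1-u)^4) + (1448447618473/1358954496000)*(u^7*(1-u)^3) + (37720322669/72477573120)*(u^8*(1-u)^2) + (462637989191/2038431744000)*(u^9*(1-u)^1) + (940706989886453/20873541058560000)*(u^10*(1-u)^0) := by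
    unfold b7
    ring
  rw [e]
  exact h

/-- the polynomial -/
noncomputable def G (x e : ℝ) : ℝ :=
  (11/120)*x^0*e^0 + (-1/225)*x^0*e^1 + (-551/450)*x^0*e^2 + (1147/1800)*x^0*e^3 + (-4/15)*x^1*e^0 + (43/30)*x^1*e^1 + (-167/60)*x^1*e^2 + (139/60)*x^1*e^3 + (-7/10)*x^1*e^4 + (11/45)*x^2*e^0 + (-12701/8000)*x^2*e^1 + (86147/30000)*x^2*e^2 + (-151717/90000)*x^2*e^3 + (-27039/40000)*x^2*e^4 + (7/12)*x^2*e^5 + (-41/1125)*x^3*e^0 + (-6367/15000)*x^3*e^1 + (120631/45000)*x^3*e^2 + (-281351/60000)*x^3*e^3 + (54917/22500)*x^3*e^4 + (14923/20000)*x^3*e^5 + (-287/400)*x^3*e^6 + (1/12)*x^4*e^0 + (-17471/45000)*x^4*e^1 + (71879/30000)*x^4*e^2 + (-729709/90000)*x^4*e^3 + (1446529/120000)*x^4*e^4 + (-3037321/360000)*x^4*e^5 + (27293/12000)*x^4*e^6 + (-39401/225000)*x^5*e^1 + (1142629/600000)*x^5*e^2 + (-748619/90000)*x^5*e^3 + (8944027/480000)*x^5*e^4 + (-81126659/3600000)*x^5*e^5 + (11150483/800000)*x^5*e^6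 + (-275807/80000)*x^5*e^7 + (1/60)*x^6*e^0 + (-1/120)*x^6*e^1 + (-1/6)*x^6*e^2 + (1/12)*x^6*e^3 + (-1/18)*x^8*e^2 + (1/36)*x^8*e^3 + (-1/72)*x^10*e^2 + (1/144)*x^10*e^3

theorem G_eq (x w : ℝ) : G x (w / 6) = b0 x * (w^0*(1-w)^7) + b1 x * (w^1*(1-w)^6) + b2 x * (w^2*(1-w)^5) + b3 x * (w^3*(1-w)^4) + b4 x * (w^4*(1-w)^3) + b5 x * (w^5*(1-w)^2) + b6 x * (w^6*(1-w)^1) + b7 x * (w^7*(1-w)^0) := by
  unfold G b0 b1 b2 b3 b4 b5 b6 b7
  ring

theorem G_nonneg {x e : ℝ} (hx0 : 0 ≤ x) (hx1 : x ≤ 9 / 8) (he0 : 0 ≤ e) (he1 : e ≤ 1 / 6) :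
    0 ≤ G x e := by
  obtain ⟨w, rfl⟩ : ∃ w, e = w / 6 := ⟨6 * e, by ring⟩
  obtain ⟨u, rfl⟩ : ∃ u, x = (9 / 8) * u := ⟨8 / 9 * x, by ring⟩
  have hw : 0 ≤ w := by linarith
  have hw1 : 0 ≤ 1 - w := by linarith
  have hu : 0 ≤ u := by linarith
  have hu1 : 0 ≤ 1 - u := by linarith
  rw [G_eq]
  have h0 := b0_nonneg hu hu1
  have h1 := b1_nonneg hu hu1
  have h2 := b2_nonneg hu hu1
  have h3 := b3_nonneg hu hu1
  have h4 := b4_nonneg hu hu1
  have h5 := b5_nonneg hu hu1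
  have h6 := b6_nonneg hu hu1
  have h7 := b7_nonneg hu hu1
  positivity


/-- `(1 + y / 2) ^ m ≤ 1 + a_m y` on `[0, 5 / 24]` -/
theorem chord {y : ℝ} (hy0 : 0 ≤ y) (hy1 : y ≤ 5 / 24) :
    (1 + y / 2) ^ 4 ≤ 1 + 467 / 200 * y ∧ (1 + y / 2) ^ 5 ≤ 1 + 1539 / 500 * y ∧
      (1 + y / 2) ^ 6 ≤ 1 + 3899 / 1000 * y ∧ (1 + y / 2) ^ 7 ≤ 1 + 961 / 200 * y := by
  have h2 : y ^ 2 ≤ (5 / 24) * y := by nlinarith
  have h3 : y ^ 3 ≤ (5 / 24) ^ 2 * y := by nlinarith [mul_nonneg hy0 hy0]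
  have h4 : y ^ 4 ≤ (5 / 24) ^ 3 * y := by nlinarith [pow_nonneg hy0 3]
  have h5 : y ^ 5 ≤ (5 / 24) ^ 4 * y := by nlinarith [pow_nonneg hy0 4]
  have h6 : y ^ 6 ≤ (5 / 24) ^ 5 * y := by nlinarith [pow_nonneg hy0 5]
  have h7 : y ^ 7 ≤ (5 / 24) ^ 6 * y := by nlinarith [pow_nonneg hy0 6]
  refine ⟨?_, ?_, ?_, ?_⟩
  · have : (1 + y / 2) ^ 4 = 1 + 2 * y + 3 / 2 * y ^ 2 + 1 / 2 * y ^ 3 + 1 / 16 * y ^ 4 := by ring
    rw [this]; nlinarith
  · have : (1 + y / 2) ^ 5 = 1 + 5 / 2 * y + 5 / 2 * y ^ 2 + 5 / 4 * y ^ 3 + 5 / 16 * y ^ 4 +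
      1 / 32 * y ^ 5 := by ring
    rw [this]; nlinarith
  · have : (1 + y / 2) ^ 6 = 1 + 3 * y + 15 / 4 * y ^ 2 + 5 / 2 * y ^ 3 + 15 / 16 * y ^ 4 +
      3 / 16 * y ^ 5 + 1 / 64 * y ^ 6 := by ring
    rw [this]; nlinarith
  · have : (1 + y / 2) ^ 7 = 1 + 7 / 2 * y + 21 / 4 * y ^ 2 + 35 / 8 * y ^ 3 + 35 / 16 * y ^ 4 +
      21 / 32 * y ^ 5 + 7 / 64 * y ^ 6 + 1 / 128 * y ^ 7 := by ring
    rw [this]; nlinarith

theorem exp_ge {v : ℝ} (hv : 0 ≤ v) :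
    1 + v + v ^ 2 / 2 + v ^ 3 / 6 + v ^ 4 / 24 + v ^ 5 / 120 ≤ Real.exp v := by
  have h := Real.sum_le_exp_of_nonneg hv 6
  simp only [Finset.sum_range_succ, Finset.sum_range_zero, Nat.factorial] at h
  norm_num at h
  linarith

/-- the core inequality, in `x = √l` -/
theorem core {e x : ℝ} (he0 : 0 ≤ e) (he1 : e ≤ 1 / 6) (hx0 : 0 ≤ x) (hx1 : x ^ 2 ≤ 5 / 4) :
    Nk e (x * (1 + e * x ^ 2 / 2)) ≤ Real.exp (x ^ 2 - e ^ 2 * x ^ 6 / 6) := by
  have hx98 : x ≤ 9 / 8 := by nlinarith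
  have hG := G_nonneg hx0 hx98 he0 he1
  have hl0 : 0 ≤ x ^ 2 := by positivity
  set z : ℝ := e ^ 2 * x ^ 4 / 6 with hz
  have hz0 : 0 ≤ z := by positivity
  have hz1 : z ≤ 1 := by
    have h1 : e ^ 2 ≤ 1 := by nlinarith
    have h2 : x ^ 4 ≤ 2 := by nlinarith
    have h3 : e ^ 2 * x ^ 4 ≤ 1 * 2 := mul_le_mul h1 h2 (by positivity) (by norm_num)
    rw [hz]; linarith
  have hv : x ^ 2 - e ^ 2 * x ^ 6 / 6 = x ^ 2 * (1 - z) := by rw [hz]; ring
  have hv0 : 0 ≤ x ^ 2 * (1 - z) := mul_nonneg hl0 (by linarith)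
  have hexp := exp_ge hv0
  rw [hv]
  refine le_trans ?_ hexp
  have hb : ∀ m : ℕ, 1 - (m : ℝ) * z ≤ (1 - z) ^ m := by
    intro m
    have := one_add_mul_le_pow (show (-2 : ℝ) ≤ -z by linarith) m
    have h2 : (1 : ℝ) + (m : ℝ) * (-z) = 1 - m * z := by ring
    have h3 : (1 : ℝ) + -z = 1 - z := by ring
    rw [h2, h3] at this
    exact this
  have b2 := hb 2
  have b3 := hb 3
  have b4 := hb 4
  have b5 := hb 5
  push_cast at b2 b3 b4 b5
  have hy1 : e * x ^ 2 ≤ 5 / 24 := by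
    have := mul_le_mul he1 hx1 hl0 (by norm_num)
    linarith
  have hy0 : 0 ≤ e * x ^ 2 := mul_nonneg he0 hl0
  obtain ⟨c4, c5, c6, c7⟩ := chord hy0 hy1
  set q : ℝ := 1 + e * x ^ 2 / 2 with hq
  have h2e : 0 < 2 - e := by linarith
  -- coefficients
  set τ : ℝ := Kb e * (1 - e) ^ 2 / 9 with hτ
  set T : ℝ := (1 - e) * (2 - 3 * e) * (2 - 7 / 4 * e) / 6 with hT
  have h1e : 0 ≤ 1 - e := by linarith
  have h23 : 0 ≤ 2 - 3 * e := by linarith
  have h74 : 0 ≤ 2 - 7 / 4 * e := by linarith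
  have h12 : 0 ≤ 1 - 2 * e := by linarith
  have h52 : 0 ≤ 1 - 5 / 2 * e := by linarith
  have h13 : 0 ≤ 1 - 3 * e := by linarith
  have hKb : 0 ≤ Kb e := by unfold Kb; positivity
  have hτ0 : 0 ≤ τ := by rw [hτ]; positivity
  have hT0 : 0 ≤ T := by rw [hT]; positivity
  -- the upper bound of `q ^ 4 * Phi`
  set U : ℝ := (τ + T) * (1 + 467 / 200 * (e * x ^ 2)) +
    2 / 5 * (1 - 2 * e) * T * x * (1 + 1539 / 500 * (e * x ^ 2)) +
    2 / 15 * (1 - 2 * e) * (1 - 5 / 2 * e) * T * x ^ 2 * (1 + 3899 / 1000 * (e * x ^ 2)) +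
    41 / 750 * (1 - 2 * e) * (1 - 5 / 2 * e) * (1 - 3 * e) * T * x ^ 3 *
      (1 + 961 / 200 * (e * x ^ 2)) with hU
  have hPhi : q ^ 4 * Phi e (x * q) * (2 - e) ≤ U := by
    have e1 : q ^ 4 * Phi e (x * q) * (2 - e) = (τ + T) * q ^ 4 +
        2 / 5 * (1 - 2 * e) * T * x * q ^ 5 +
        2 / 15 * (1 - 2 * e) * (1 - 5 / 2 * e) * T * x ^ 2 * q ^ 6 +
        41 / 750 * (1 - 2 * e) * (1 - 5 / 2 * e) * (1 - 3 * e) * T * x ^ 3 * q ^ 7 := by
      unfold Phi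
      rw [hτ, hT]
      field_simp
      ring
    rw [e1, hU]
    have k1 : 0 ≤ τ + T := by positivity
    have k2 : 0 ≤ 2 / 5 * (1 - 2 * e) * T * x := by positivity
    have k3 : 0 ≤ 2 / 15 * (1 - 2 * e) * (1 - 5 / 2 * e) * T * x ^ 2 := by positivity
    have k4 : 0 ≤ 41 / 750 * (1 - 2 * e) * (1 - 5 / 2 * e) * (1 - 3 * e) * T * x ^ 3 := by
      positivity
    have := mul_le_mul_of_nonneg_left c4 k1
    have := mul_le_mul_of_nonneg_left c5 k2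
    have := mul_le_mul_of_nonneg_left c6 k3
    have := mul_le_mul_of_nonneg_left c7 k4
    linarith
  have hGe : G x e = (2 - e) * ((1 - 2 * z) / 2 + x ^ 2 / 6 * (1 - 3 * z) +
      x ^ 4 / 24 * (1 - 4 * z) + x ^ 6 / 120 * (1 - 5 * z)) -
      ((2 - e) * (e + 5 / 12 * e ^ 2 * x ^ 2) + U) := by
    rw [hU, hτ, hT, hz]
    unfold G Kb
    ring
  -- main
  have hN : Nk e (x * q) = 1 + x ^ 2 + e * x ^ 4 + e ^ 2 * x ^ 6 / 4 +
      x ^ 4 * (q ^ 4 * Phi e (x * q)) := by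
    unfold Nk
    have : (x * q) ^ 2 = x ^ 2 + e * x ^ 4 + e ^ 2 * x ^ 6 / 4 := by rw [hq]; ring
    have h4 : (x * q) ^ 4 = x ^ 4 * q ^ 4 := by ring
    rw [this, h4]
    ring
  have hPhi2 : q ^ 4 * Phi e (x * q) ≤ U / (2 - e) := by
    rw [le_div_iff₀ h2e]
    exact hPhi
  have hR : e + 5 / 12 * e ^ 2 * x ^ 2 + U / (2 - e) ≤ (1 - 2 * z) / 2 + x ^ 2 / 6 * (1 - 3 * z) +
      x ^ 4 / 24 * (1 - 4 * z) + x ^ 6 / 120 * (1 - 5 * z) := by
    have h1 : 0 ≤ (2 - e) * (((1 - 2 * z) / 2 + x ^ 2 / 6 * (1 - 3 * z) +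
      x ^ 4 / 24 * (1 - 4 * z) + x ^ 6 / 120 * (1 - 5 * z)) -
      (e + 5 / 12 * e ^ 2 * x ^ 2 + U / (2 - e))) := by
      have : (2 - e) * (U / (2 - e)) = U := by field_simp
      rw [hGe] at hG
      nlinarith [this]
    have h2 := nonneg_of_mul_nonneg_right h1 h2e
    linarith
  rw [hN]
  have x4 : 0 ≤ x ^ 4 := by positivity
  have m1 := mul_le_mul_of_nonneg_left (add_le_add_left hPhi2 (e + 5 / 12 * e ^ 2 * x ^ 2)) x4
  have m2 := mul_le_mul_of_nonneg_left hR x4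
  have n2 := mul_le_mul_of_nonneg_left b2 x4
  have n3 := mul_le_mul_of_nonneg_left b3 (show 0 ≤ x ^ 6 by positivity)
  have n4 := mul_le_mul_of_nonneg_left b4 (show 0 ≤ x ^ 8 by positivity)
  have n5 := mul_le_mul_of_nonneg_left b5 (show 0 ≤ x ^ 10 by positivity)
  have e5 : x ^ 2 * (1 - z) = x ^ 2 - e ^ 2 * x ^ 6 / 6 := hv.symm
  have p2 : (x ^ 2 * (1 - z)) ^ 2 = x ^ 4 * (1 - z) ^ 2 := by ring
  have p3 : (x ^ 2 * (1 - z)) ^ 3 = x ^ 6 * (1 - z) ^ 3 := by ring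
  have p4 : (x ^ 2 * (1 - z)) ^ 4 = x ^ 8 * (1 - z) ^ 4 := by ring
  have p5 : (x ^ 2 * (1 - z)) ^ 5 = x ^ 10 * (1 - z) ^ 5 := by ring
  rw [p2, p3, p4, p5, e5]
  nlinarith [m1, m2, n2, n3, n4, n5]

/-- R2 -/
theorem R2 {e l : ℝ} (he0 : 0 ≤ e) (he1 : e ≤ 1 / 6) (hl0 : 0 ≤ l) (hl1 : l ≤ 5 / 4) :
    Nk e (√l * (1 + e * l / 2)) ≤ Real.exp (l - e ^ 2 * l ^ 3 / 6) := by
  have h := core he0 he1 (Real.sqrt_nonneg l) (by rw [Real.sq_sqrt hl0]; exact hl1)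
  have h6 : (√l) ^ 6 = l ^ 3 := by
    have : (√l) ^ 6 = ((√l) ^ 2) ^ 3 := by ring
    rw [this, Real.sq_sqrt hl0]
  rw [Real.sq_sqrt hl0, h6] at h
  exact h

end Pool.Agent.N710.GK
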